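import Pool.Agent.Helper8.UL.Final
import Pool.Agent.Helper54.UL.CombA
import Pool.Agent.Helper54.UL.CombB
import Pool.Agent.Helper29.UL.LIN
import Pool.Agent.Helper29.UL.ORD
import Pool.Agent.Helper85.UL.ROWS

/-!
# MP_de303a_co, Q1: bounded-degree outerplanar DAGs have bounded upward local crossing number

Every finite DAG whose underlying graph is outerplanar with maximum degree at most `Δ` has an
upward `(4 Δ² + 10 Δ)`-planar drawing.
-/

namespace Pool.Agent.Results.MP_de303a_co.BoundedDegreeOuterplanar

open Pool.UL

/-- Every DAG whose underlying graph is outerplanar of maximum degree at most `Δ` admits an upward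
drawing in which every edge is crossed at most `4 Δ² + 10 Δ` times. -/
theorem result (Δ : ℕ) (V : Type) [Finite V] (E : V → V → Prop) (hE : Acyclic E)
    (ho : Outerplanar E) (hΔ : MaxDeg E Δ) :
    ∃ D : UpwardDrawing E, D.IsPlanar (4 * Δ ^ 2 + 10 * Δ) :=
  final Pool.Agent.Helper29.UL.ord Pool.Agent.Helper85.UL.main Pool.Agent.Helper29.UL.lin
    Pool.UL.H54.combA Pool.UL.H54.combB Δ V E hE ho hΔ

end Pool.Agent.Results.MP_de303a_co.BoundedDegreeOuterplanar
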