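import Pool.Agent.Helper8.UL2.Final2
import Pool.Agent.Helper8.UL2.N1
import Pool.Agent.Helper11.UL2.IND2
import Pool.Agent.Helper29.UL.LIN
import Pool.Agent.Helper49.UL2.STEP
import Pool.Agent.Helper51.UL2.INS
import Pool.Agent.Helper54.UL2.BM
import Pool.Agent.Helper54.UL2.N3
import Pool.Agent.Helper54.UL2.ORD2
import Pool.Agent.Helper79.UL2.HB
import Pool.Agent.Helper85.UL.ROWS
import Pool.Agent.Helper85.UL2.DUAL
import Pool.Agent.Helper97.UL2.N2
import Pool.Agent.Helper97.UL2.ROOT

/-!
# MP_de303a_co, Q2: DAGs on 2-trees of bounded degree have bounded upward local crossing number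

Every DAG whose underlying graph is a 2-tree of maximum degree at most `Δ` has an upward
`(400 Δ³ + 300 Δ² + 20 Δ)`-planar drawing.
-/

namespace Pool.Agent.Results.MP_de303a_co.BoundedDegreeTwoTrees

open Pool.UL

/-- Every DAG whose underlying graph is a 2-tree of maximum degree at most `Δ` admits an upward
drawing in which every edge is crossed at most `400 Δ³ + 300 Δ² + 20 Δ` times. -/
theorem result (Δ : ℕ) (V : Type) (E : V → V → Prop) (hE : Acyclic E) (ht : TwoTree E)
    (hΔ : MaxDeg E Δ) :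
    ∃ D : UpwardDrawing E, D.IsPlanar (400 * Δ ^ 3 + 300 * Δ ^ 2 + 20 * Δ) := by
  have hD := Helper85.UL2.DUAL.main
  have h3 := Pool.UL.H54.N3.main hD n2_thm
  have hS := Pool.Agent.Helper49.UL2.STEP.main hD Pool.Agent.Helper8.UL2.N1.main n2_thm h3
    Pool.UL.H54.BM.main
  have hI := Pool.Agent.Helper11.UL2.IND2.main hS root_thm
    (Pool.Agent.Helper79.UL2.build Pool.Agent.Helper51.UL2.INS.main)
    Pool.Agent.Helper79.UL2.hb
  exact Pool.Agent.Helper8.UL2.final2 Pool.UL.H54.ORD2.main hI Pool.Agent.Helper85.UL.main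
    Pool.Agent.Helper29.UL.lin Δ V E hE ht hΔ

end Pool.Agent.Results.MP_de303a_co.BoundedDegreeTwoTrees
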